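import Pool.Agent.Helper84.MI.ClassBodies
import Pool.Agent.Helper57.CW.Final

/-!
# Convex sets of perimeter `1` and diameter at most `1 / π` have constant width
-/

namespace Pool.Agent.Helper84.MI

open Pool.Agent.Helper16.Disk7 Pool.Agent.Helper57.CW Pool.Agent.Helper79.MI
open Pool.Agent.Helper72.PR
open MeasureTheory Metric Complex Set
open scoped ENNReal Pointwise

/-- The perimeter is at most `π` times the diameter, with equality for the sets of constant
width only. -/
theorem constantWidth_of_diam {K : Set ℂ} (hK : IsUnitConvexSet K)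
    (hd : ∀ x ∈ K, ∀ y ∈ K, dist x y ≤ 1 / Real.pi) : ConstantWidth K := by
  have hπ := Real.pi_pos
  have hle : ∀ t, wd K t ≤ 1 / Real.pi := fun t =>
    supp_width_le hK.isCompact hK.nonempty (fun x hx y hy => by
      rw [← dist_eq_norm]; exact hd x hx y hy) t
  have hcont := wd_continuous hK.isCompact hK.nonempty
  have hper : ∀ t, wd K (t + Real.pi) = wd K t := by
    intro t
    unfold wd
    have h2 : t + Real.pi + Real.pi = t + 2 * Real.pi := by ring
    rw [h2, supportFn_periodic K t]
    ring
  refine ⟨1 / Real.pi, fun θ => ?_⟩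
  show wd K θ = 1 / Real.pi
  by_contra hne
  have hlt : wd K θ < 1 / Real.pi := lt_of_le_of_ne (hle θ) hne
  have h1 := perimeter_eq_wd hK.isCompact hK.nonempty (θ - Real.pi / 2)
  rw [hK.perimeter_eq] at h1
  have h2 : ∫ t in (θ - Real.pi / 2)..(θ - Real.pi / 2 + Real.pi), wd K t <
      ∫ _t in (θ - Real.pi / 2)..(θ - Real.pi / 2 + Real.pi), (1 / Real.pi : ℝ) := by
    apply intervalIntegral.integral_lt_integral_of_continuousOn_of_le_of_exists_lt (by linarith)
      hcont.continuousOn continuousOn_const (fun t _ => hle t)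
    exact ⟨θ, ⟨by linarith, by linarith⟩, hlt⟩
  rw [← h1, intervalIntegral.integral_const, add_sub_cancel_left, smul_eq_mul,
    mul_one_div_cancel hπ.ne'] at h2
  exact lt_irrefl _ h2

/-- **`(P_k)`, `3 ≤ k ≤ 9`, for the convex sets of diameter at most `0.32`, and at most `1 / π`
if `k = 3` or `k = 7`.** -/
theorem small_diameter_all {k : ℕ} (h3 : 3 ≤ k) (h9 : k ≤ 9) (c : ℂ) (R : ℝ)
    (h : Accommodates (closedBall c R)
      (fun _ : Fin k => closedBall (0 : ℂ) (1 / (2 * Real.pi))))
    (K : Fin k → Set ℂ) (hK : ∀ i, IsUnitConvexSet (K i) ∧ ∀ x ∈ K i, ∀ y ∈ K i,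
      dist x y ≤ if k = 3 ∨ k = 7 then 1 / Real.pi else 0.32) :
    Accommodates (closedBall c R) K := by
  by_cases hk : k = 3 ∨ k = 7
  · simp only [if_pos hk] at hK
    exact final (by omega) h9 c R h K fun i =>
      ⟨(hK i).1, Or.inl (constantWidth_of_diam (hK i).1 (hK i).2)⟩
  · simp only [if_neg hk] at hK
    exact small_diameter (by omega) c R h K hK

end Pool.Agent.Helper84.MI
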