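import Pool.Agent.Helper84.MI.ClassPoly
import Pool.Agent.Helper72.PR.Jung
import Pool.Agent.Helper72.PR.Width
import Pool.Agent.Helper79.MI.Limit
import Pool.Agent.Helper79.MI.ExPoly
import Pool.Agent.Helper57.CW.Low1
import Pool.Agent.Helper57.CW.Low2
import Pool.Agent.Helper57.CW.Centres
import Pool.Agent.Helper57.CW.Ring

/-!
# `(P_k)`, `k = 4, 5, 6, 8, 9`, for the bodies of diameter at most `0.32`
-/

namespace Pool.Agent.Helper84.MI

open Pool.Agent.Helper16.Disk7 Pool.Agent.Helper57.CW Pool.Agent.Helper79.MI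
open Pool.Agent.Helper72.PR
open MeasureTheory Metric Complex Set
open scoped ENNReal Pointwise

lemma convex_translate' {K : Set ℂ} (hK : Convex ℝ K) (t : ℂ) :
    Convex ℝ ((fun z => z + t) '' K) := by
  have h := hK.translate t
  simpa [add_comm] using h

lemma supp_translate' {K : Set ℂ} (hc : IsCompact K) (hne : K.Nonempty) (t : ℂ) (θ : ℝ) :
    supportFn ((fun z => z + t) '' K) θ = supportFn K θ + ip t (e θ) := by
  have hc' : IsCompact ((fun z => z + t) '' K) := hc.image (by fun_prop)
  obtain ⟨z, hz, hz'⟩ := exists_attain hc hne θ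
  obtain ⟨y, ⟨y', hy', rfl⟩, hy⟩ := exists_attain hc' (hne.image _) θ
  apply le_antisymm
  · rw [← hy]
    simp only
    rw [ip_add_left]
    linarith [ip_le_supp hc hy' θ]
  · rw [← hz', ← ip_add_left]
    exact ip_le_supp hc' ⟨z, hz, rfl⟩ θ

lemma perimeter_translate' {K : Set ℂ} (hc : IsCompact K) (hne : K.Nonempty) (t : ℂ) :
    perimeter ((fun z => z + t) '' K) = perimeter K := by
  have hcont : Continuous (supportFn ((fun z => z + t) '' K)) :=
    supp_continuous (hc.image (by fun_prop)) (hne.image _)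
  have h1 : ∀ θ, supportFn K θ = supportFn ((fun z => z + t) '' K) θ - ip t (e θ) := by
    intro θ
    rw [supp_translate' hc hne]
    ring
  have h2 : ∫ θ in (0 : ℝ)..(2 * Real.pi), ip t (e θ) = 0 := by
    simp only [ip_e]
    rw [intervalIntegral.integral_add (Continuous.intervalIntegrable (by fun_prop) _ _)
      (Continuous.intervalIntegrable (by fun_prop) _ _), intervalIntegral.integral_const_mul,
      intervalIntegral.integral_const_mul, integral_cos, integral_sin]
    simp
  have h3 : Continuous fun θ => ip t (e θ) := by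
    simp only [ip_e]
    fun_prop
  rw [perimeter, perimeter, intervalIntegral.integral_congr (fun θ _ => h1 θ),
    intervalIntegral.integral_sub (hcont.intervalIntegrable _ _) (h3.intervalIntegrable _ _), h2,
    sub_zero]

lemma accommodates_of_translates {k : ℕ} {D : Set ℂ} {K : Fin k → Set ℂ} (c : Fin k → ℂ)
    (h : Accommodates D (fun i => (fun z => z + (-c i)) '' K i)) : Accommodates D K := by
  obtain ⟨g, hg, hD, hdis⟩ := h
  refine ⟨fun i z => g i (z + (-c i)), fun i => ?_, fun i => ?_, fun i j hij => ?_⟩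
  · obtain ⟨a, b, ha, hb⟩ := hg i
    refine ⟨a, b - a * c i, ha, fun z => ?_⟩
    simp only [hb]
    ring
  · have := hD i
    rwa [image_image] at this
  · have := hdis i j hij
    rwa [image_image, image_image] at this

/-- A set of positive widths spans the plane: the interior of its convex compact version is not
empty. -/
theorem interior_nonempty_of_width {K : Set ℂ} (hKc : Convex ℝ K)
    (hw : ∀ θ : ℝ, ∃ x ∈ K, ∃ y ∈ K, 0 < ip x (e θ) - ip y (e θ)) : (interior K).Nonempty := by
  rw [hKc.interior_nonempty_iff_affineSpan_eq_top]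
  by_contra hne
  have hKn : K.Nonempty := by
    obtain ⟨x, hx, -⟩ := hw 0
    exact ⟨x, hx⟩
  have hdir : vectorSpan ℝ K ≠ ⊤ := by
    intro h
    apply hne
    rw [← direction_affineSpan] at h
    exact (AffineSubspace.direction_eq_top_iff_of_nonempty
      ((affineSpan_nonempty ℝ).2 hKn)).1 h
  obtain ⟨f, hf0, hf⟩ := Submodule.exists_le_ker_of_lt_top _ (lt_top_iff_ne_top.2 hdir)
  set w : ℂ := ⟨f 1, f Complex.I⟩ with hwdef
  have hfz : ∀ z : ℂ, f z = z.re * w.re + z.im * w.im := by
    intro z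
    have h1 : z = z.re • (1 : ℂ) + z.im • Complex.I := by
      apply Complex.ext <;> simp
    conv_lhs => rw [h1]
    rw [map_add, map_smul, map_smul, smul_eq_mul, smul_eq_mul]
  have hw0 : w ≠ 0 := by
    intro h
    apply hf0
    apply LinearMap.ext
    intro z
    rw [hfz, h]
    simp
  have hn : (‖w‖ : ℝ) ≠ 0 := norm_ne_zero_iff.2 hw0
  obtain ⟨θ, hθ⟩ := exists_e (w / ‖w‖) (by
    rw [norm_div, Complex.norm_real, norm_norm, div_self hn])
  have hwθ : w = ((‖w‖ : ℝ) : ℂ) * e θ := by
    rw [← hθ]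
    have : ((‖w‖ : ℝ) : ℂ) ≠ 0 := by exact_mod_cast hn
    field_simp
  obtain ⟨x, hx, y, hy, hxy⟩ := hw θ
  have h1 : f (x - y) = 0 := by
    have := hf (vsub_mem_vectorSpan ℝ hx hy)
    simpa using this
  have hre : w.re = ‖w‖ * Real.cos θ := by
    conv_lhs => rw [hwθ]
    rw [Complex.mul_re, Complex.ofReal_re, Complex.ofReal_im, e_re]
    ring
  have him : w.im = ‖w‖ * Real.sin θ := by
    conv_lhs => rw [hwθ]
    rw [Complex.mul_im, Complex.ofReal_re, Complex.ofReal_im, e_im]
    ring
  have h2 : f (x - y) = ‖w‖ * (ip x (e θ) - ip y (e θ)) := by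
    rw [hfz, hre, him, ip_e, ip_e, Complex.sub_re, Complex.sub_im]
    ring
  rw [h2] at h1
  rcases mul_eq_zero.1 h1 with h3 | h3
  · exact hn h3
  · linarith

/-- The value of `1.2` in Jung's theorem. -/
lemma jung_class {K : Set ℂ} (hK : IsCompact K) (hne : K.Nonempty)
    (hd : ∀ x ∈ K, ∀ y ∈ K, ‖x - y‖ ≤ 2.0107) : ∃ c : ℂ, K ⊆ closedBall c 1.2 := by
  obtain ⟨c, hc⟩ := jung hK hne hd
  refine ⟨c, hc.trans (closedBall_subset_closedBall ?_)⟩
  have h3 : (1.7 : ℝ) ≤ √3 := Real.le_sqrt_of_sq_le (by norm_num)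
  rw [div_le_iff₀ (by linarith)]
  linarith

/-- **Bodies of perimeter `2π` and diameter at most `0.64 π`.** -/
theorem accommodates_bodies_class {n k : ℕ} (hnk : (k = n ∧ (n = 4 ∨ n = 5 ∨ n = 6)) ∨
      (k = n + 1 ∧ (n = 7 ∨ n = 8))) (K : Fin k → Set ℂ) (hK : ∀ i, IsCompact (K i))
    (hKc : ∀ i, Convex ℝ (K i)) (hne : ∀ i, (K i).Nonempty)
    (hd : ∀ i, ∀ x ∈ K i, ∀ y ∈ K i, ‖x - y‖ ≤ 0.64 * Real.pi)
    (hp : ∀ i, perimeter (K i) = 2 * Real.pi) :
    Accommodates (closedBall 0 (1 + 1 / Real.sin (Real.pi / n))) K := by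
  have hπ := Real.pi_lt_d6
  have hwid : ∀ i θ, 1.855 ≤ supportFn (K i) θ + supportFn (K i) (θ + Real.pi) := fun i θ =>
    width_class (hK i) (hne i) (hd i) (hp i) θ
  have hint : ∀ i, (interior (K i)).Nonempty := by
    intro i
    apply interior_nonempty_of_width (hKc i)
    intro θ
    obtain ⟨x, hx, h1⟩ := exists_attain (hK i) (hne i) θ
    obtain ⟨y, hy, h2⟩ := exists_attain (hK i) (hne i) (θ + Real.pi)
    refine ⟨x, hx, y, hy, ?_⟩
    have h3 := hwid i θ
    rw [← h1, ← h2, e_add_pi, ip_neg_right] at h3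
    linarith
  choose c hc using hint
  set K' : Fin k → Set ℂ := fun i => (fun z => z + (-c i)) '' K i with hK'def
  have hK' : ∀ i, IsCompact (K' i) := fun i => (hK i).image (by fun_prop)
  have hKc' : ∀ i, Convex ℝ (K' i) := fun i => convex_translate' (hKc i) _
  have hne' : ∀ i, (K' i).Nonempty := fun i => (hne i).image _
  have hint' : ∀ i, ∃ a : ℝ, 0 < a ∧ closedBall (0 : ℂ) a ⊆ K' i := by
    intro i
    obtain ⟨a, ha, hball⟩ := Metric.isOpen_iff.1 isOpen_interior _ (hc i)
    refine ⟨a / 2, by positivity, fun z hz => ⟨z + c i, ?_, by simp⟩⟩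
    apply interior_subset
    apply hball
    rw [mem_closedBall, dist_zero_right] at hz
    rw [mem_ball, dist_eq_norm, add_sub_cancel_right]
    linarith
  have hd' : ∀ i, ∀ x ∈ K' i, ∀ y ∈ K' i, ‖x - y‖ ≤ 2.0107 := by
    rintro i _ ⟨x, hx, rfl⟩ _ ⟨y, hy, rfl⟩
    have := hd i x hx y hy
    simp only [add_sub_add_right_eq_sub]
    linarith
  have hper : ∀ i, perimeter (K' i) = 2 * Real.pi := by
    intro i
    rw [← hp i]
    exact perimeter_translate' (hK i) (hne i) _
  have hwid' : ∀ i θ, 1.855 ≤ supportFn (K' i) θ + supportFn (K' i) (θ + Real.pi) := by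
    intro i θ
    have h1 := hwid i θ
    simp only [hK'def]
    rw [supp_translate' (hK i) (hne i), supp_translate' (hK i) (hne i), e_add_pi, ip_neg_right]
    linarith
  choose a ha hball using hint'
  have hmain : Accommodates (closedBall 0 (1 + 1 / Real.sin (Real.pi / n))) K' := by
    refine accommodates_of_polygons hK' hne' fun η hη => ?_
    have hη2 : ∀ i, ∃ η₁ : ℝ, 0 < η₁ ∧ η₁ ≤ η ∧ η₁ ≤ 0.001 ∧ η₁ < a i := fun i =>
      ⟨min (min η 0.001) (a i / 2), lt_min (lt_min hη (by norm_num)) (by linarith [ha i]),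
        (min_le_left _ _).trans (min_le_left _ _), (min_le_left _ _).trans (min_le_right _ _),
        lt_of_le_of_lt (min_le_right _ _) (by linarith [ha i])⟩
    choose η₁ h1 h2 h3 h4 using hη2
    choose V hV1 hV2 hV3 hV4 hV5 hV6 hV7 hV8 hV9 using fun i =>
      exists_polygon_diam (hK' i) (hKc' i) (hne' i) (h1 i) (hd' i)
    refine ⟨V, fun i => (hV4 i).trans (cthickening_mono (h2 i) _), ?_⟩
    have hcl : ∀ i, Cls (V i) := by
      intro i
      have hVne : (hull (V i)).Nonempty := by
        obtain ⟨x, hx⟩ := hV1 i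
        exact ⟨x, subset_convexHull ℝ _ hx⟩
      refine ⟨?_, hV7 i, fun θ => ?_, by rw [← hper i]; exact hV5 i⟩
      · have h5 : closedBall (0 : ℂ) (a i - η₁ i) ⊆ hull (V i) := by
          apply hV9 i 0 (a i - η₁ i) (by linarith [h4 i])
          rw [sub_add_cancel]
          exact hball i
        apply interior_mono h5
        rw [interior_closedBall _ (by linarith [h4 i] : a i - η₁ i ≠ 0), mem_ball, dist_self]
        linarith [h4 i]
      · obtain ⟨x, hx, h5⟩ := exists_attain (isCompact_hull (V i)) hVne θ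
        obtain ⟨y, hy, h6⟩ := exists_attain (isCompact_hull (V i)) hVne (θ + Real.pi)
        refine ⟨x, hx, y, hy, ?_⟩
        have h7 := hV8 i θ
        have h8 := hV8 i (θ + Real.pi)
        have h9 := hwid' i θ
        have h10 := h3 i
        rw [← h5] at h7
        rw [← h6, e_add_pi, ip_neg_right] at h8
        linarith
    exact accommodates_class hnk V hcl fun i => jung_class (isCompact_hull (V i))
      (by
        obtain ⟨x, hx⟩ := hV1 i
        exact ⟨x, subset_convexHull ℝ _ hx⟩) (hV7 i)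
  exact accommodates_of_translates c hmain

/-- The scaling of the plane by a positive factor. -/
lemma accommodates_of_scaled {k : ℕ} {K : Fin k → Set ℂ} {R s : ℝ} (hs : 0 < s)
    (h : Accommodates (closedBall 0 R) (fun i => s • K i)) :
    Accommodates (closedBall 0 (s⁻¹ * R)) K := by
  have h1 := Pool.Agent.Helper84.PR.accommodates_smul (s := s⁻¹) (inv_pos.2 hs) h
  rw [mul_zero] at h1
  convert h1 using 1
  funext i
  ext z
  have hs0 : (s : ℂ) ≠ 0 := by exact_mod_cast hs.ne'
  constructor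
  · intro hz
    refine ⟨s • z, ⟨z, hz, rfl⟩, ?_⟩
    rw [Complex.real_smul]
    push_cast
    field_simp
  · rintro ⟨_, ⟨y, hy, rfl⟩, rfl⟩
    convert hy using 1
    show ((s⁻¹ : ℝ) : ℂ) * (s • y) = y
    rw [Complex.real_smul]
    push_cast
    field_simp

/-- **`(P_k)`, `k = 4, 5, 6, 8, 9`, for the convex sets of perimeter `1` and diameter at most
`0.32`.** -/
theorem small_diameter {k : ℕ} (hk : k = 4 ∨ k = 5 ∨ k = 6 ∨ k = 8 ∨ k = 9) (c : ℂ) (R : ℝ)
    (h : Accommodates (closedBall c R)
      (fun _ : Fin k => closedBall (0 : ℂ) (1 / (2 * Real.pi))))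
    (K : Fin k → Set ℂ) (hK : ∀ i, IsUnitConvexSet (K i) ∧ ∀ x ∈ K i, ∀ y ∈ K i, dist x y ≤ 0.32) :
    Accommodates (closedBall c R) K := by
  have hπ := Real.pi_pos
  have h2π : 0 < 2 * Real.pi := by positivity
  have hr : 0 < 1 / (2 * Real.pi) := by positivity
  obtain ⟨b, hb, hd⟩ := centres hr h
  have hR : R / (1 / (2 * Real.pi)) = 2 * Real.pi * R := by field_simp
  rw [hR] at hb
  -- the scaled bodies
  have hmain : ∀ n : ℕ, ((k = n ∧ (n = 4 ∨ n = 5 ∨ n = 6)) ∨ (k = n + 1 ∧ (n = 7 ∨ n = 8))) →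
      1 / Real.sin (Real.pi / n) ≤ 2 * Real.pi * R - 1 → Accommodates (closedBall c R) K := by
    intro n hn hle
    have h1 : Accommodates (closedBall 0 (1 + 1 / Real.sin (Real.pi / n)))
        (fun i => (2 * Real.pi) • K i) := by
      apply accommodates_bodies_class hn
      · exact fun i => (hK i).1.isCompact.smul _
      · exact fun i => (hK i).1.convex.smul _
      · exact fun i => (hK i).1.nonempty.smul_set
      · rintro i _ ⟨x, hx, rfl⟩ _ ⟨y, hy, rfl⟩
        have h2 := (hK i).2 x hx y hy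
        rw [dist_eq_norm] at h2
        show ‖(2 * Real.pi) • x - (2 * Real.pi) • y‖ ≤ _
        rw [← smul_sub, norm_smul, Real.norm_of_nonneg h2π.le]
        nlinarith
      · intro i
        rw [Pool.Agent.Helper84.PR.perimeter_smul h2π.le, (hK i).1.perimeter_eq, mul_one]
    refine accommodates_translate (accommodates_of_scaled h2π h1) c ?_
    rw [inv_mul_le_iff₀ h2π]
    linarith
  rcases hk with rfl | rfl | rfl | rfl | rfl
  · exact hmain 4 (by omega) (low_small (by norm_num) (by norm_num) hb hd)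
  · exact hmain 5 (by omega) (low_small (by norm_num) (by norm_num) hb hd)
  · exact hmain 6 (by omega) (low_small (by norm_num) (by norm_num) hb hd)
  · refine hmain 7 (by omega) ?_
    have := low_eight hb hd
    exact_mod_cast this
  · refine hmain 8 (by omega) ?_
    have := low_nine hb hd
    exact_mod_cast this

end Pool.Agent.Helper84.MI
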