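import Pool.Agent.Helper79.MI.GoodStates
import Pool.Agent.Helper72.PR.Pl
import Pool.Agent.Helper19.FR.Num4

/-!
# Rings of polygons of diameter at most `2.0107` and widths at least `1.85`, and rings with a
central polygon

The motion of a ring polygon is `z ↦ e (α i) * (e (-v i) * (z - (x i - R e (v i))))`, the central
polygon is translated so that it lies in the disk of centre `0` and radius `1.2`; the points of
the ring polygons have norms at least `R - 2.0107 ≥ 1.27`.
-/

namespace Pool.Agent.Helper84.MI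

open Pool.Agent.Helper16.Disk7 Pool.Agent.Helper57.CW Pool.Agent.Helper79.MI
open Pool.Agent.Helper72.PR
open MeasureTheory Metric Complex Set
open scoped ENNReal Pointwise

/-- The polygons of the class: interior point `0`, diameter at most `2.0107`, widths at least
`1.85`, perimeter at most `2π`. -/
structure Cls (V : Finset ℂ) : Prop where
  zero_mem : 0 ∈ interior (hull V)
  diam : ∀ x ∈ hull V, ∀ y ∈ hull V, ‖x - y‖ ≤ 2.0107
  width : ∀ θ : ℝ, ∃ x ∈ hull V, ∃ y ∈ hull V, 1.85 ≤ ip x (e θ) - ip y (e θ)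
  per : perimeter (hull V) ≤ 2 * Real.pi

/-- `d = 1 / sin (π / n)`. -/
theorem d_facts {n : ℕ} (h4 : 4 ≤ n) :
    0 < 1 / Real.sin (Real.pi / n) ∧ 2 ≤ (1 / Real.sin (Real.pi / n)) ^ 2 ∧
      1 - 2 / (1 / Real.sin (Real.pi / n)) ^ 2 = Real.cos (2 * Real.pi / n) := by
  have hn : (4 : ℝ) ≤ n := by exact_mod_cast h4
  have hπ := Real.pi_pos
  have hpos : 0 < Real.pi / n := by positivity
  have hle : Real.pi / n ≤ Real.pi / 4 :=
    div_le_div_of_nonneg_left hπ.le (by norm_num) (by linarith)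
  have hs : 0 < Real.sin (Real.pi / n) :=
    Real.sin_pos_of_pos_of_lt_pi hpos (by linarith)
  have hs2 : Real.sin (Real.pi / n) ≤ Real.sin (Real.pi / 4) :=
    Real.sin_le_sin_of_le_of_le_pi_div_two (by linarith) (by linarith) hle
  have hs3 : Real.sin (Real.pi / n) ^ 2 ≤ 1 / 2 := by
    calc Real.sin (Real.pi / n) ^ 2 ≤ Real.sin (Real.pi / 4) ^ 2 :=
          pow_le_pow_left₀ hs.le hs2 2
      _ = 1 / 2 := by
          rw [Real.sin_pi_div_four, div_pow, Real.sq_sqrt (by norm_num)]; norm_num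
  refine ⟨by positivity, ?_, ?_⟩
  · rw [div_pow, one_pow, le_div_iff₀ (by positivity)]
    linarith
  · rw [div_pow, one_pow, div_div_eq_mul_div, div_one]
    have h1 : 2 * Real.pi / (n : ℝ) = 2 * (Real.pi / n) := by ring
    rw [h1, Real.cos_two_mul']
    have h2 := Real.sin_sq_add_cos_sq (Real.pi / n)
    linarith

theorem R_four : (1 : ℝ) + 1 / Real.sin (Real.pi / (4 : ℕ)) = 1 + √2 := by
  have h4 : Real.sin (Real.pi / (4 : ℕ)) = √2 / 2 := by
    push_cast
    exact Real.sin_pi_div_four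
  have h2 : √2 * √2 = 2 := Real.mul_self_sqrt (by norm_num)
  have h0 : √2 ≠ 0 := by positivity
  rw [h4]
  field_simp
  linarith

theorem R_ge {n : ℕ} (h4 : 4 ≤ n) (h8 : n ≤ 8) : (2.4 : ℝ) ≤ 1 + 1 / Real.sin (Real.pi / n) := by
  interval_cases n
  · rw [R_four]
    have : (1.4 : ℝ) ≤ √2 := Real.le_sqrt_of_sq_le (by norm_num)
    linarith
  · have := R_ge_five; linarith
  · have h6 : Real.sin (Real.pi / 6) = 1 / 2 := Real.sin_pi_div_six
    push_cast
    rw [h6]
    norm_num
  · have := R_ge_seven; linarith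
  · have := R_ge_eight; linarith

/-- **Rings of polygons of the class.** -/
theorem class_ring {n : ℕ} (h4 : 4 ≤ n) (h8 : n ≤ 8) (V : Fin n → Finset ℂ)
    (hV : ∀ i, Cls (V i)) :
    ∃ (x : Fin n → ℂ) (v α : Fin n → ℝ), (∀ i, x i ∈ V i ∧
      v i ∈ st (V i) (1 + 1 / Real.sin (Real.pi / n)) (x i)) ∧
      ∀ i j, i ≠ j →
        Disjoint (interior (rot (α i) (pl (V i) (1 + 1 / Real.sin (Real.pi / n)) (x i) (v i))))
          (interior (rot (α j) (pl (V j) (1 + 1 / Real.sin (Real.pi / n)) (x j) (v j)))) := by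
  have : NeZero n := ⟨by omega⟩
  have hne : ∀ i, (hull (V i)).Nonempty := fun i => ⟨0, interior_subset (hV i).zero_mem⟩
  rcases Nat.lt_or_ge 4 n with h5 | h5
  swap
  · obtain rfl : n = 4 := by omega
    rw [R_four]
    refine Pool.Helper19.FR.four_polygons_class V (fun i => (hV i).zero_mem) (fun i x hx => ?_)
      (fun i => (hV i).per) (fun i j _ γ τ hdis =>
        no_containment_class Pool.Helper19.FR.par_four (hne i) (hne j) (hV i).diam (hV i).width
        (hV j).diam (hV j).width γ τ hdis)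
      (fun i x hx v hv => body_pl (hV i).diam (hV i).width hx hv)
    have h1 := (hV i).diam x (subset_convexHull ℝ _ hx) 0 (interior_subset (hV i).zero_mem)
    rw [sub_zero] at h1
    have : (1.4 : ℝ) ≤ √2 := Real.le_sqrt_of_sq_le (by norm_num)
    linarith
  obtain ⟨hd0, hd, hcos⟩ := d_facts h4
  have hR := R_ge h4 h8
  set d : ℝ := 1 / Real.sin (Real.pi / n) with hddef
  have hpar := par_class hR
  obtain ⟨x, v, hxv, hsum⟩ := good_states (by omega : 2 ≤ n) (R := 1 + d) rfl hd hd0 V
    (fun i => (hV i).zero_mem)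
    (fun i x hx => by
      have h1 := (hV i).diam x (subset_convexHull ℝ _ hx) 0 (interior_subset (hV i).zero_mem)
      rw [sub_zero] at h1
      linarith)
    (fun i => (hV i).per) (fun i γ τ hdis =>
      no_containment_class hpar (hne i) (hne (i + 1)) (hV i).diam (hV i).width
        (hV (i + 1)).diam (hV (i + 1)).width γ τ hdis)
  obtain ⟨α, hα⟩ := ring_class h5 h8 (R := 1 + d) (by rw [hddef])
    (fun i => pl (V i) (1 + d) (x i) (v i))
    (fun i => body_pl (hV i).diam (hV i).width (hxv i).1 (hxv i).2)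
    (fun i => interior_pl ⟨0, (hV i).zero_mem⟩ _ _) (by rw [← hcos]; exact hsum)
  exact ⟨x, v, α, hxv, hα⟩

lemma rigid_ring (R α v : ℝ) (x : ℂ) :
    IsRigidMotion (fun z => e α * (e (-v) * (z - (x - R * e v)))) := by
  refine ⟨e α * e (-v), -(e α * e (-v) * (x - R * e v)), ?_, fun z => ?_⟩
  · rw [norm_mul, norm_e, norm_e, one_mul]
  · ring

lemma image_ring (V : Finset ℂ) (R α v : ℝ) (x : ℂ) :
    (fun z => e α * (e (-v) * (z - (x - R * e v)))) '' hull V = rot α (pl V R x v) := by
  rw [rot, pl, Set.image_image]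

lemma norm_rot_le {R α : ℝ} {K : Set ℂ} (h : K ⊆ closedBall 0 R) :
    rot α K ⊆ closedBall 0 R := by
  rintro _ ⟨z, hz, rfl⟩
  have h1 := h hz
  rw [mem_closedBall, dist_zero_right] at h1 ⊢
  show ‖e α * z‖ ≤ R
  rw [norm_mul, norm_e, one_mul]
  exact h1

/-- Points of placed bodies are far from the centre. -/
lemma le_norm_of_mem_rot {R D W α : ℝ} {K : Set ℂ} (hR : 0 ≤ R) (hK : Body R D W K) {z : ℂ}
    (hz : z ∈ rot α K) : R - D ≤ ‖z‖ := by
  obtain ⟨y, hy, rfl⟩ := hz
  show R - D ≤ ‖e α * y‖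
  rw [norm_mul, norm_e, one_mul]
  have h1 := hK.diam _ hK.touch _ hy
  have h2 : ‖(R : ℂ)‖ - ‖y‖ ≤ ‖(R : ℂ) - y‖ := norm_sub_norm_le _ _
  rw [Complex.norm_real, Real.norm_of_nonneg hR] at h2
  linarith

/-- **Rings of polygons of the class, as packings.** -/
theorem accommodates_ring {n : ℕ} (h4 : 4 ≤ n) (h8 : n ≤ 8) (V : Fin n → Finset ℂ)
    (hV : ∀ i, Cls (V i)) :
    ∃ g : Fin n → ℂ → ℂ, (∀ i, IsRigidMotion (g i)) ∧
      (∀ i, g i '' hull (V i) ⊆ closedBall 0 (1 + 1 / Real.sin (Real.pi / n))) ∧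
      (∀ i, ∀ z ∈ g i '' hull (V i), 1 + 1 / Real.sin (Real.pi / n) - 2.0107 ≤ ‖z‖) ∧
      ∀ i j, i ≠ j → Disjoint (interior (g i '' hull (V i))) (interior (g j '' hull (V j))) := by
  obtain ⟨x, v, α, hxv, hα⟩ := class_ring h4 h8 V hV
  have hR := R_ge h4 h8
  set R : ℝ := 1 + 1 / Real.sin (Real.pi / n) with hRdef
  have hB : ∀ i, Body R 2.0107 1.85 (pl (V i) R (x i) (v i)) := fun i =>
    body_pl (hV i).diam (hV i).width (hxv i).1 (hxv i).2
  refine ⟨fun i z => e (α i) * (e (-v i) * (z - (x i - R * e (v i)))),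
    fun i => rigid_ring _ _ _ _, fun i => ?_, fun i z hz => ?_, fun i j hij => ?_⟩
  · rw [image_ring]
    exact norm_rot_le (hB i).sub
  · rw [image_ring] at hz
    exact le_norm_of_mem_rot (by linarith) (hB i) hz
  · rw [image_ring, image_ring]
    exact hα i j hij

/-- The interior of a set in a closed ball is in the open ball. -/
lemma norm_lt_of_mem_interior {A : Set ℂ} {r : ℝ} (hr : r ≠ 0) (h : A ⊆ closedBall 0 r) {z : ℂ}
    (hz : z ∈ interior A) : ‖z‖ < r := by
  have h1 := interior_mono h hz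
  rw [interior_closedBall _ hr, mem_ball, dist_zero_right] at h1
  exact h1

/-- **Rings of polygons of the class, with or without a central polygon.** -/
theorem accommodates_class {n k : ℕ} (hnk : (k = n ∧ (n = 4 ∨ n = 5 ∨ n = 6)) ∨
      (k = n + 1 ∧ (n = 7 ∨ n = 8))) (V : Fin k → Finset ℂ) (hV : ∀ i, Cls (V i))
    (hJ : ∀ i, ∃ c : ℂ, hull (V i) ⊆ closedBall c 1.2) :
    Accommodates (closedBall 0 (1 + 1 / Real.sin (Real.pi / n))) (fun i => hull (V i)) := by
  rcases hnk with ⟨rfl, hn⟩ | ⟨rfl, hn⟩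
  · obtain ⟨g, h1, h2, -, h3⟩ := accommodates_ring (by omega) (by omega) V hV
    exact ⟨g, h1, h2, h3⟩
  · have h7 : 7 ≤ n := by omega
    have h8 : n ≤ 8 := by omega
    have hR : (3.29 : ℝ) ≤ 1 + 1 / Real.sin (Real.pi / n) := by
      rcases hn with rfl | rfl
      · exact R_ge_seven
      · have := R_ge_eight; linarith
    obtain ⟨g, h1, h2, hfar, h3⟩ := accommodates_ring (by omega) h8 (fun i => V i.succ)
      (fun i => hV i.succ)
    obtain ⟨c, hc⟩ := hJ 0
    set R : ℝ := 1 + 1 / Real.sin (Real.pi / n) with hRdef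
    have hcen : (fun z : ℂ => z - c) '' hull (V 0) ⊆ closedBall 0 1.2 := by
      rintro _ ⟨z, hz, rfl⟩
      have h4 := hc hz
      rw [mem_closedBall, dist_eq_norm] at h4
      rw [mem_closedBall, dist_zero_right]
      exact h4
    have hdis : ∀ i : Fin n, Disjoint (interior ((fun z : ℂ => z - c) '' hull (V 0)))
        (interior (g i '' hull (V i.succ))) := by
      intro i
      rw [Set.disjoint_left]
      intro z hz hz'
      have h4 := hcen (interior_subset hz)
      rw [mem_closedBall, dist_zero_right] at h4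
      have h5 := hfar i z (interior_subset hz')
      linarith
    refine ⟨Fin.cases (fun z => z - c) g, fun i => ?_, fun i => ?_, fun i j hij => ?_⟩
    · refine Fin.cases ?_ (fun i => ?_) i
      · exact ⟨1, -c, by simp, fun z => by simp [sub_eq_add_neg]⟩
      · exact h1 i
    · refine Fin.cases ?_ (fun i => ?_) i
      · exact hcen.trans (closedBall_subset_closedBall (by linarith))
      · exact h2 i
    · revert hij
      refine Fin.cases ?_ (fun i => ?_) i
      · refine Fin.cases ?_ (fun j => ?_) j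
        · intro h; exact absurd rfl h
        · intro _; exact hdis j
      · refine Fin.cases ?_ (fun j => ?_) j
        · intro _; exact (hdis i).symm
        · intro h
          exact h3 i j fun h' => h (by rw [h'])

end Pool.Agent.Helper84.MI
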